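import Mathlib

/-!
Jet ideals of clutter edge ideals can have embedded components.

Counterexample, over every field: the path `a - b - c - d - e` (vertices `0,1,2,3,4`) and `s = 1`.
The class of the monomial `a₁ e₁ b₀ d₀` modulo the jet ideal `J` is nonzero and is killed by
`a₀, b₀, c₀, d₀, e₀` and `c₁`; so some associated prime of `J` contains these six variables and
hence strictly contains the prime `(a₀, b₀, c₀, d₀, e₀)`, which contains `J`.
-/

namespace Pool.Agent.Results.MP_dc74b6_ag.EmbeddedJet

open MvPolynomial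

/-- A clutter on the vertex set `Fin n`: a family of nonempty subsets, none containing another. -/
def IsClutter {n : ℕ} (C : Finset (Finset (Fin n))) : Prop :=
  (∀ e ∈ C, e.Nonempty) ∧ ∀ e ∈ C, ∀ f ∈ C, e ⊆ f → e = f

/-- The edge ideal of a clutter: generated by the products of the variables of each edge. -/
noncomputable def edgeIdeal (k : Type*) [Field k] {n : ℕ} (C : Finset (Finset (Fin n))) :
    Ideal (MvPolynomial (Fin n) k) :=
  Ideal.span {m | ∃ e ∈ C, m = ∏ i ∈ e, X i}

/-- The substitution `x_i ↦ ∑_{j ≤ s} x_{i,j} t^j`, with values in `S_s[t]`. -/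
noncomputable def jetSubst (k : Type*) [Field k] (n s : ℕ) :
    MvPolynomial (Fin n) k →ₐ[k] Polynomial (MvPolynomial (Fin n × Fin (s + 1)) k) :=
  aeval fun i => ∑ j : Fin (s + 1), Polynomial.C (X (i, j)) * Polynomial.X ^ (j : ℕ)

/-- The `s`-jet ideal of `I`: generated by the coefficients `f^{(j)}` of `t^j`, `0 ≤ j ≤ s`,
in the substituted polynomials, `f ∈ I`. -/
noncomputable def jetIdeal {k : Type*} [Field k] {n : ℕ} (s : ℕ)
    (I : Ideal (MvPolynomial (Fin n) k)) : Ideal (MvPolynomial (Fin n × Fin (s + 1)) k) :=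
  Ideal.span {g | ∃ f ∈ I, ∃ j ≤ s, g = (jetSubst k n s f).coeff j}

/-- An ideal has an embedded component if it has an associated prime not minimal over it. -/
def HasEmbeddedComponent {S : Type*} [CommRing S] (J : Ideal S) : Prop :=
  ∃ P ∈ associatedPrimes S (S ⧸ J), P ∉ J.minimalPrimes

/-- The path on five vertices. -/
def path5 : Finset (Finset (Fin 5)) := {{0, 1}, {1, 2}, {2, 3}, {3, 4}}

section Proof

variable {k : Type*} [Field k]

lemma jetSubst_X (n : ℕ) (i : Fin n) :
    jetSubst k n 1 (X i) = Polynomial.C (X (i, 0)) + Polynomial.C (X (i, 1)) * Polynomial.X := by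
  simp [jetSubst, Fin.sum_univ_two]

lemma coeff_zero_mul (n : ℕ) (i j : Fin n) :
    (jetSubst k n 1 (X i * X j)).coeff 0 = X (i, 0) * X (j, 0) := by
  simp [jetSubst_X, Polynomial.coeff_mul]

lemma coeff_one_mul (n : ℕ) (i j : Fin n) :
    (jetSubst k n 1 (X i * X j)).coeff 1 = X (i, 0) * X (j, 1) + X (i, 1) * X (j, 0) := by
  rw [map_mul, jetSubst_X, jetSubst_X, Polynomial.coeff_mul]
  simp [Finset.Nat.antidiagonal_succ, Polynomial.coeff_X, Polynomial.coeff_C]

lemma edge_mem (i j : Fin 5) (hij : i ≠ j) (h : ({i, j} : Finset (Fin 5)) ∈ path5) :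
    (X i * X j : MvPolynomial (Fin 5) k) ∈ edgeIdeal k path5 :=
  Ideal.subset_span ⟨{i, j}, h, by rw [Finset.prod_pair hij]⟩

lemma gen_zero (i j : Fin 5) (hij : i ≠ j) (h : ({i, j} : Finset (Fin 5)) ∈ path5) :
    (X (i, 0) * X (j, 0) : MvPolynomial (Fin 5 × Fin 2) k) ∈ jetIdeal 1 (edgeIdeal k path5) :=
  Ideal.subset_span ⟨_, edge_mem i j hij h, 0, by norm_num, (coeff_zero_mul 5 i j).symm⟩

lemma gen_one (i j : Fin 5) (hij : i ≠ j) (h : ({i, j} : Finset (Fin 5)) ∈ path5) :
    (X (i, 0) * X (j, 1) + X (i, 1) * X (j, 0) : MvPolynomial (Fin 5 × Fin 2) k) ∈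
      jetIdeal 1 (edgeIdeal k path5) :=
  Ideal.subset_span ⟨_, edge_mem i j hij h, 1, le_rfl, (coeff_one_mul 5 i j).symm⟩

/-- A ring map killing the eight natural generators kills the jet ideal. -/
lemma jet_le_ker {T : Type*} [CommRing T] (φ : MvPolynomial (Fin 5 × Fin 2) k →+* T)
    (h : ∀ i j : Fin 5, j.val = i.val + 1 → φ (X (i, 0)) * φ (X (j, 0)) = 0 ∧
      φ (X (i, 0)) * φ (X (j, 1)) + φ (X (i, 1)) * φ (X (j, 0)) = 0) :
    jetIdeal 1 (edgeIdeal k path5) ≤ RingHom.ker φ := by
  have key : edgeIdeal k path5 ≤ Ideal.comap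
      ((Polynomial.mapRingHom φ).comp (jetSubst k 5 1).toRingHom)
      (Ideal.span {(Polynomial.X : Polynomial T) ^ 2}) := by
    have aux : ∀ i j : Fin 5, j.val = i.val + 1 → (X i * X j : MvPolynomial (Fin 5) k) ∈
        Ideal.comap ((Polynomial.mapRingHom φ).comp (jetSubst k 5 1).toRingHom)
        (Ideal.span {(Polynomial.X : Polynomial T) ^ 2}) := by
      intro i j hij
      rw [Ideal.mem_comap, Ideal.mem_span_singleton, Polynomial.X_pow_dvd_iff]
      intro d hd
      have h0 := coeff_zero_mul (k := k) 5 i j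
      have h1 := coeff_one_mul (k := k) 5 i j
      change (Polynomial.map φ (jetSubst k 5 1 (X i * X j))).coeff d = 0
      rw [Polynomial.coeff_map]
      interval_cases d
      · rw [h0, map_mul]; exact (h i j hij).1
      · rw [h1, map_add, map_mul, map_mul]; exact (h i j hij).2
    rw [edgeIdeal, Ideal.span_le]
    rintro _ ⟨e, he, rfl⟩
    simp only [path5, Finset.mem_insert, Finset.mem_singleton] at he
    rcases he with rfl | rfl | rfl | rfl
    · rw [Finset.prod_pair (by decide)]; exact aux _ _ rfl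
    · rw [Finset.prod_pair (by decide)]; exact aux _ _ rfl
    · rw [Finset.prod_pair (by decide)]; exact aux _ _ rfl
    · rw [Finset.prod_pair (by decide)]; exact aux _ _ rfl
  rw [jetIdeal, Ideal.span_le]
  rintro _ ⟨f, hf, j, hj, rfl⟩
  have h2 := key hf
  rw [Ideal.mem_comap, Ideal.mem_span_singleton, Polynomial.X_pow_dvd_iff] at h2
  have h3 := h2 j (by omega)
  change (Polynomial.map φ (jetSubst k 5 1 f)).coeff j = 0 at h3
  rw [Polynomial.coeff_map] at h3
  exact h3

/-- The witness monomial `a₁ e₁ b₀ d₀`. -/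
noncomputable def wit : MvPolynomial (Fin 5 × Fin 2) k :=
  X (0, 1) * X (4, 1) * X (1, 0) * X (3, 0)

/-- Values of the variables in `k[u, v] / (u², v²)`. -/
noncomputable def pt (k : Type*) [Field k] : Fin 5 × Fin 2 → DualNumber (DualNumber k) :=
  fun p => ![![TrivSqZeroExt.inl DualNumber.eps, 1], ![-TrivSqZeroExt.inl DualNumber.eps, 1],
    ![0, 0], ![DualNumber.eps, 1], ![-DualNumber.eps, 1]] p.1 p.2

lemma wit_notMem : (wit : MvPolynomial (Fin 5 × Fin 2) k) ∉ jetIdeal 1 (edgeIdeal k path5) := by
  intro hw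
  let c : k →+* DualNumber (DualNumber k) :=
    (algebraMap (DualNumber k) (DualNumber (DualNumber k))).comp (algebraMap k (DualNumber k))
  have hu : (TrivSqZeroExt.inl DualNumber.eps : DualNumber (DualNumber k)) *
      TrivSqZeroExt.inl DualNumber.eps = 0 := by
    rw [← TrivSqZeroExt.inl_mul, DualNumber.eps_mul_eps, TrivSqZeroExt.inl_zero]
  have hv : (DualNumber.eps : DualNumber (DualNumber k)) * DualNumber.eps = 0 :=
    DualNumber.eps_mul_eps
  have hle := jet_le_ker (eval₂Hom c (pt k)) (by
    intro i j hij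
    fin_cases i <;> fin_cases j <;> simp at hij <;> simp [pt, hu, hv])
  have h0 := hle hw
  rw [RingHom.mem_ker] at h0
  simp only [wit, map_mul, eval₂Hom_X', pt] at h0
  have h1 := congrArg (fun z => TrivSqZeroExt.snd (TrivSqZeroExt.snd z)) h0
  simp at h1

/-- The endomorphism killing the variables `x_{i,0}`. -/
noncomputable def killZero (k : Type*) [Field k] :
    MvPolynomial (Fin 5 × Fin 2) k →ₐ[k] MvPolynomial (Fin 5 × Fin 2) k :=
  aeval fun p => if p.2 = 0 then 0 else X p

lemma sub_killZero_mem (P : Ideal (MvPolynomial (Fin 5 × Fin 2) k))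
    (hP : ∀ i : Fin 5, X (i, 0) ∈ P) (f : MvPolynomial (Fin 5 × Fin 2) k) :
    f - killZero k f ∈ P := by
  induction f using MvPolynomial.induction_on with
  | C a => simp [killZero]
  | add p q hp hq =>
    have : p + q - killZero k (p + q) = (p - killZero k p) + (q - killZero k q) := by
      rw [map_add]; ring
    rw [this]; exact P.add_mem hp hq
  | mul_X p v hp =>
    have hv : X v - killZero k (X v) ∈ P := by
      obtain ⟨i, j⟩ := v
      by_cases hj : j = 0
      · subst hj; simpa [killZero] using hP i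
      · simp [killZero, hj]
    have : p * X v - killZero k (p * X v) =
        (p - killZero k p) * X v + killZero k p * (X v - killZero k (X v)) := by
      rw [map_mul]; ring
    rw [this]
    exact P.add_mem (P.mul_mem_right _ hp) (P.mul_mem_left _ hv)

lemma path5_embedded : HasEmbeddedComponent (jetIdeal 1 (edgeIdeal k path5)) := by
  set J := jetIdeal 1 (edgeIdeal k path5) with hJ
  have hw : (Ideal.Quotient.mk J wit) ≠ 0 := by
    rw [Ne, Ideal.Quotient.eq_zero_iff_mem]; exact wit_notMem
  obtain ⟨P, hP, hle⟩ := exists_le_isAssociatedPrime_of_isNoetherianRing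
    (MvPolynomial (Fin 5 × Fin 2) k) (Ideal.Quotient.mk J wit) hw
  have hann : ∀ g : MvPolynomial (Fin 5 × Fin 2) k, g * wit ∈ J → g ∈ P := by
    intro g hg
    apply hle
    rw [Submodule.mem_colon_singleton, Submodule.mem_bot]
    change Ideal.Quotient.mk J g * Ideal.Quotient.mk J wit = 0
    rw [← map_mul, Ideal.Quotient.eq_zero_iff_mem]
    exact hg
  have g01 := gen_zero (k := k) 0 1 (by decide) (by decide)
  have g12 := gen_zero (k := k) 1 2 (by decide) (by decide)
  have g23 := gen_zero (k := k) 2 3 (by decide) (by decide)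
  have g34 := gen_zero (k := k) 3 4 (by decide) (by decide)
  have f01 := gen_one (k := k) 0 1 (by decide) (by decide)
  have f12 := gen_one (k := k) 1 2 (by decide) (by decide)
  have f34 := gen_one (k := k) 3 4 (by decide) (by decide)
  have h0 : ∀ i : Fin 5, X (i, 0) ∈ P := by
    intro i
    apply hann
    fin_cases i
    · have := J.mul_mem_left (X (0, 1) * X (4, 1) * X (3, 0)) g01
      convert this using 1
      simp only [wit, Fin.zero_eta]; ring
    · have := J.sub_mem (J.mul_mem_left (X (4, 1) * X (1, 0) * X (3, 0)) f01)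
        (J.mul_mem_left (X (4, 1) * X (1, 1) * X (3, 0)) g01)
      convert this using 1
      simp only [wit, Fin.mk_one]; ring
    · have := J.mul_mem_left (X (0, 1) * X (4, 1) * X (3, 0)) g12
      convert this using 1
      simp only [wit, Fin.reduceFinMk]; ring
    · have := J.sub_mem (J.mul_mem_left (X (0, 1) * X (1, 0) * X (3, 0)) f34)
        (J.mul_mem_left (X (0, 1) * X (1, 0) * X (3, 1)) g34)
      convert this using 1
      simp only [wit, Fin.reduceFinMk]; ring
    · have := J.mul_mem_left (X (0, 1) * X (4, 1) * X (1, 0)) g34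
      convert this using 1
      simp only [wit, Fin.reduceFinMk]; ring
  have hc : X (2, 1) ∈ P := by
    apply hann
    have := J.sub_mem (J.mul_mem_left (X (0, 1) * X (4, 1) * X (3, 0)) f12)
      (J.mul_mem_left (X (0, 1) * X (4, 1) * X (1, 1)) g23)
    convert this using 1
    simp only [wit]; ring
  refine ⟨P, hP, fun hmin => ?_⟩
  have hQ : (RingHom.ker (killZero k).toRingHom).IsPrime := RingHom.ker_isPrime _
  have hJQ : J ≤ RingHom.ker (killZero k).toRingHom := by
    apply jet_le_ker
    intro i j _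
    simp [killZero]
  have hQP : RingHom.ker (killZero k).toRingHom ≤ P := by
    intro f hf
    have h1 := sub_killZero_mem P h0 f
    have h2 : killZero k f = 0 := hf
    rwa [h2, sub_zero] at h1
  have h3 : killZero k (X (2, 1)) = 0 := hmin.2 ⟨hQ, hJQ⟩ hQP hc
  simp [killZero] at h3

end Proof

/-- Over every field there are a clutter `C` and an `s` such that the jet ideal
`J_s(I(C))` has an associated prime that is not minimal over it. -/
theorem result (k : Type*) [Field k] :
    ∃ (n : ℕ) (C : Finset (Finset (Fin n))) (s : ℕ),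
      IsClutter C ∧ HasEmbeddedComponent (jetIdeal s (edgeIdeal k C)) :=
  ⟨5, path5, 1, ⟨by decide, by decide⟩, path5_embedded⟩

end Pool.Agent.Results.MP_dc74b6_ag.EmbeddedJet
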