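import Pool.Agent.Lib.MP_dc74b6_ag.Graph.Main

open Pool.Agent.Lib.MP_dc74b6_ag.Graph

/-- The embedded primes of the first jet ideal of the edge ideal of a finite graph, over any
field: they are the ideals `primeOf k G U`, where every vertex outside `U` has a neighbour that is
isolated in `U` or two neighbours in `U` that are not tied, and some vertex outside `U` has no
neighbour that is isolated in `U`. -/
theorem Pool.Agent.Results.MP_dc74b6_ag.GraphPrimes.result
    (k : Type) [Field k] (V : Type) [Finite V] (G : SimpleGraph V)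
    (P : Ideal (MvPolynomial (V × Fin 2) k)) :
    (P ∈ associatedPrimes (MvPolynomial (V × Fin 2) k)
        (MvPolynomial (V × Fin 2) k ⧸ jetIdeal 1 (graphIdeal k G)) ∧
      P ∉ (jetIdeal 1 (graphIdeal k G)).minimalPrimes) ↔
    ∃ U : Set V, P = primeOf k G U ∧
      (∀ j ∉ U, (∃ i, Iso G U i ∧ G.Adj j i) ∨
        ∃ i ∈ U, ∃ v ∈ U, G.Adj j i ∧ G.Adj j v ∧ ¬ Tied k G U i v) ∧
      ∃ j ∉ U, ∀ i, Iso G U i → ¬ G.Adj j i := by
  constructor
  · rintro ⟨h1, h2⟩
    obtain ⟨U, rfl, hU⟩ := mem_ass.1 h1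
    refine ⟨U, rfl, hU, ?_⟩
    by_contra h3
    refine h2 (mem_minimal.2 fun j hj => ?_)
    by_contra h4
    exact h3 ⟨j, hj, fun i hi h5 => h4 ⟨i, hi, h5⟩⟩
  · rintro ⟨U, rfl, hU, j, hj, h⟩
    refine ⟨mem_ass.2 ⟨U, rfl, hU⟩, fun h1 => ?_⟩
    obtain ⟨i, hi, h2⟩ := mem_minimal.1 h1 j hj
    exact h i hi h2
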